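import Pool.Agent.H37.MHD.Defs2
import Pool.Agent.H63.MHD.Paths

/-! M8a: closeness of the next stage. -/

open MeasureTheory Set Filter Topology
open scoped ContDiff
open H36.MHD

noncomputable section

namespace H37.MHD

variable {B : Bg}

theorem phi_smooth70 (a : Fin 4) : ContDiff ℝ ∞ (phi B a) := by
  unfold phi
  by_cases h : a.val < 3
  · simp only [h, dite_true]
    fun_prop
  · simp only [h, dite_false]
    fun_prop

theorem Stage.NN_nonneg70 (st : Stage B) (a : Fin 4) (z : X) : 0 ≤ st.NN a z := by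
  unfold Stage.NN; positivity

/-- `|CC| ≤ 4`. -/
theorem Stage.abs_CC_le (st : Stage B) (lam : ℝ) (i : Fin 2) (z : X) : |st.CC lam i z| ≤ 4 := by
  unfold Stage.CC
  calc |∑ b : Fin 4, Real.cos (lam * (mu b * st.h i b z))|
      ≤ ∑ b : Fin 4, |Real.cos (lam * (mu b * st.h i b z))| := Finset.abs_sum_le_sum_abs _ _
    _ ≤ ∑ b : Fin 4, (1 : ℝ) := Finset.sum_le_sum fun b _ => Real.abs_cos_le_one _
    _ = 4 := by simp

/-- bound of the new force at a point -/
theorem StepData.abs_FF_le {st : Stage B} {ε : ℝ} (hε : 0 < ε) (sd : StepData st ε) (lam : ℝ)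
    (e : ℝ) (z : X) (he : ∀ i k, |st.E i k z| ≤ e) (k : Fin 3) :
    |st.FF ε sd.g lam k z| ≤ 4 * e / ε := by
  have he0 : 0 ≤ e := (abs_nonneg _).trans (he 0 0)
  have hsum : |∑ a, ∑ j, sd.g z * st.NN a z * st.E j k z *
      Real.cos (lam * (mu a * st.h j a z))| ≤ 2 * e := by
    calc |∑ a, ∑ j, sd.g z * st.NN a z * st.E j k z * Real.cos (lam * (mu a * st.h j a z))|
        ≤ ∑ a, ∑ j : Fin 2, |sd.g z * st.NN a z * st.E j k z *
            Real.cos (lam * (mu a * st.h j a z))| := by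
          refine (Finset.abs_sum_le_sum_abs _ _).trans (Finset.sum_le_sum fun a _ => ?_)
          exact Finset.abs_sum_le_sum_abs _ _
      _ ≤ ∑ a, ∑ j : Fin 2, sd.g z * st.NN a z * e := by
          refine Finset.sum_le_sum fun a _ => Finset.sum_le_sum fun j _ => ?_
          have h1 : 0 ≤ sd.g z * st.NN a z := mul_nonneg (sd.g_nonneg z) (st.NN_nonneg70 a z)
          rw [abs_mul, abs_mul, abs_of_nonneg h1]
          calc sd.g z * st.NN a z * |st.E j k z| * |Real.cos (lam * (mu a * st.h j a z))|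
              ≤ sd.g z * st.NN a z * e * 1 := by
                apply mul_le_mul _ (Real.abs_cos_le_one _) (abs_nonneg _) (mul_nonneg h1 he0)
                exact mul_le_mul_of_nonneg_left (he j k) h1
            _ = sd.g z * st.NN a z * e := mul_one _
      _ = 2 * e * (sd.g z * ∑ a, st.NN a z) := by
          rw [Finset.mul_sum, Finset.mul_sum]
          refine Finset.sum_congr rfl fun a _ => ?_
          simp; ring
      _ = 2 * e * sd.chi z := by rw [sd.g_eq]
      _ ≤ 2 * e := by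
          have := (sd.chi_range z).2
          nlinarith
  unfold Stage.FF
  rw [abs_mul, abs_of_pos (by positivity : 0 < 2 / ε)]
  calc 2 / ε * |∑ a, ∑ j, sd.g z * st.NN a z * st.E j k z * Real.cos (lam * (mu a * st.h j a z))|
      ≤ 2 / ε * (2 * e) := mul_le_mul_of_nonneg_left hsum (by positivity)
    _ = 4 * e / ε := by ring

theorem Kmax_mul (B : Bg) : Kmax B * (40 * B.T) = 1 := by
  have := B.hT
  unfold Kmax
  field_simp

/-- the back-to-labels maps change by `O(1/λ²)` -/
theorem Next.Y_close {st : Stage B} {ε : ℝ} {sd : StepData st ε} {lam : ℝ} (hlam : 1 ≤ lam)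
    {st' : Stage B} (hn : Next sd lam st') (i : Fin 2) (z : X) (hz : |z.1| ≤ 3 / 2 * B.T) :
    ‖vec (st'.Y i) z - vec (st.Y i) z‖ ≤ 2 * B.T * (sd.C / lam ^ 2) := by
  obtain ⟨K, hK0, hK, hL⟩ := st.lip
  have hT := B.hT
  have hδ : 0 ≤ sd.C / lam ^ 2 := div_nonneg sd.C_nonneg (by positivity)
  have hcont : ∀ (s : Stage B), Continuous (vec (s.u i)) := fun s =>
    continuous_pi fun k => (s.u_smooth i k).continuous
  have hd : ∀ s, |s| ≤ |z.1| → ∀ x, ‖vec (st.u i) (s, x) - vec (st'.u i) (s, x)‖ ≤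
      sd.C / lam ^ 2 := by
    intro s _ x
    rw [pi_norm_le_iff_of_nonneg hδ]
    intro k
    have h1 : (vec (st.u i) (s, x) - vec (st'.u i) (s, x)) k = - sd.v lam i k (s, x) := by
      simp only [Pi.sub_apply, vec, hn.u_eq]; ring
    rw [h1, norm_neg, Real.norm_eq_abs]
    exact sd.v_le lam hlam i k _
  have hTK : K * (40 * B.T) ≤ 1 := by
    have := Kmax_mul B
    have h2 : K * (40 * B.T) ≤ Kmax B * (40 * B.T) :=
      mul_le_mul_of_nonneg_right hK.le (by positivity)
    linarith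
  have hz2 : |z.1| ≤ 2 * B.T := by linarith
  have key := path_stab B.T K (sd.C / lam ^ 2) hT hK0 hTK hδ (vec (st.u i)) (vec (st'.u i))
    (hcont st) (hcont st') z.1 hz2 (fun s hs x y => hL i s (hs.trans hz2) x y) hd z.2 z.2
    (vec (st.Y i) z) (vec (st'.Y i) z) (st.path i z.1 z.2 hz) (st'.path i z.1 z.2 hz)
  rw [sub_self, sub_zero, norm_zero, mul_zero, zero_add] at key
  rw [norm_sub_rev]
  refine key.trans (mul_le_mul_of_nonneg_right ?_ hδ)
  linarith

/-- outside the ball nothing moves -/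
theorem Stage.Y_outside (st : Stage B) (i : Fin 2) (z : X) (hz : |z.1| ≤ 3 / 2 * B.T)
    (hx : B.r < ‖z.2 - B.x0‖) : vec (st.Y i) z = z.2 := by
  have hw : wv B z.2 = 0 := by
    funext k
    by_contra h
    exact absurd (B.w_supp k z.2 h) (not_le.mpr hx)
  have := st.displ i z.1 z.2 hz
  rw [hw] at this
  simp only [smul_zero, add_zero, norm_zero, mul_zero] at this
  have h0 : vec (st.Y i) (z.1, z.2) - z.2 = 0 := norm_le_zero_iff.mp this
  exact sub_eq_zero.mp h0

/-- the labels of the points in the ball stay in a fixed ball -/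
theorem Stage.Y_mem (st : Stage B) (i : Fin 2) (z : X) (hz : |z.1| ≤ 3 / 2 * B.T)
    (hx : ‖z.2 - B.x0‖ ≤ B.r) : vec (st.Y i) z ∈ Metric.closedBall B.x0 2 := by
  rw [mem_closedBall_iff_norm]
  have h1 := st.Y_near i z.1 z.2 hz
  have h2 := B.hr1
  calc ‖vec (st.Y i) z - B.x0‖ = ‖(vec (st.Y i) (z.1, z.2) - z.2) + (z.2 - B.x0)‖ := by
        congr 1; simp
    _ ≤ 1 / 10 + B.r := (norm_add_le _ _).trans (add_le_add h1 hx)
    _ ≤ 2 := by linarith

/-- smooth functions are Lipschitz on the fixed ball -/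
theorem exists_lip_ball (B : Bg) (ρ : V3 → ℝ) (hρ : ContDiff ℝ ∞ ρ) :
    ∃ L, 0 ≤ L ∧ ∀ x ∈ Metric.closedBall B.x0 2, ∀ y ∈ Metric.closedBall B.x0 2,
      |ρ y - ρ x| ≤ L * ‖y - x‖ := by
  have hcomp : IsCompact (Metric.closedBall B.x0 (2 : ℝ)) := isCompact_closedBall _ _
  have hcont : Continuous (fderiv ℝ ρ) := hρ.continuous_fderiv (by simp)
  obtain ⟨L, hL⟩ := hcomp.exists_bound_of_continuousOn hcont.continuousOn
  refine ⟨max L 0, le_max_right _ _, fun x hx y hy => ?_⟩
  have := (convex_closedBall B.x0 (2 : ℝ)).norm_image_sub_le_of_norm_fderiv_le (𝕜 := ℝ)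
    (fun z _ => (hρ.differentiable (by simp)).differentiableAt)
    (fun z hz => (hL z hz).trans (le_max_left L 0)) hx hy
  simpa [Real.norm_eq_abs] using this

theorem next_close {st : Stage B} {ε : ℝ} (hε : 0 < ε) (sd : StepData st ε) (δ : ℝ) (hδ : 0 < δ) :
    ∃ Lam, ∀ lam, Lam ≤ lam → ∀ st' : Stage B, Next sd lam st' →
      (∀ i z, |z.1| ≤ B.T → |st'.dens i z - st.dens i z| ≤ 4 * ε + δ) ∧
      (∀ i k z, |st'.u i k z - st.u i k z| ≤ δ) ∧
      (∀ i k j z, |dx j (st'.u i k) z - dx j (st.u i k) z| ≤ δ) ∧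
      (∀ e, (∀ i k z, |z.1| ≤ B.T → |st.E i k z| ≤ e) →
        ∀ k z, |z.1| ≤ B.T → |st'.f k z - st.f k z| ≤ 4 * e / ε) := by
  have hT := B.hT
  obtain ⟨L, hL0, hL⟩ := exists_lip_ball B st.rho st.rho_smooth
  have hC := sd.C_nonneg
  refine ⟨max 1 (max (sd.C / δ) (L * (2 * B.T * sd.C) / δ)), fun lam hlam st' hn => ?_⟩
  have h1 : 1 ≤ lam := (le_max_left _ _).trans hlam
  have h2 : sd.C / δ ≤ lam := ((le_max_left _ _).trans (le_max_right _ _)).trans hlam
  have h3 : L * (2 * B.T * sd.C) / δ ≤ lam :=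
    ((le_max_right _ _).trans (le_max_right _ _)).trans hlam
  have hlam0 : 0 < lam := by linarith
  have h2' : sd.C / lam ≤ δ := by
    rw [div_le_iff₀ hδ] at h2
    rw [div_le_iff₀ hlam0]
    linarith
  have h3' : L * (2 * B.T * sd.C) / lam ≤ δ := by
    rw [div_le_iff₀ hδ] at h3
    rw [div_le_iff₀ hlam0]
    linarith
  have hsq : ∀ c, 0 ≤ c → c / lam ^ 2 ≤ c / lam := by
    intro c hc
    apply div_le_div_of_nonneg_left hc hlam0
    nlinarith
  have hcos : ∀ y : V3, |ε * ∑ a, Real.cos (lam * (mu a * phi B a y))| ≤ 4 * ε := by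
    intro y
    rw [abs_mul, abs_of_pos hε]
    have : |∑ a : Fin 4, Real.cos (lam * (mu a * phi B a y))| ≤ 4 := by
      refine (Finset.abs_sum_le_sum_abs _ _).trans ?_
      calc ∑ a : Fin 4, |Real.cos (lam * (mu a * phi B a y))| ≤ ∑ a : Fin 4, (1 : ℝ) :=
            Finset.sum_le_sum fun b _ => Real.abs_cos_le_one _
        _ = 4 := by simp
    nlinarith
  refine ⟨?_, ?_, ?_, ?_⟩
  · intro i z hz
    have hz32 : |z.1| ≤ 3 / 2 * B.T := by linarith
    have hrho : |st.rho (vec (st'.Y i) z) - st.rho (vec (st.Y i) z)| ≤ δ := by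
      by_cases hx : ‖z.2 - B.x0‖ ≤ B.r
      · have hY := hn.Y_close h1 i z hz32
        calc |st.rho (vec (st'.Y i) z) - st.rho (vec (st.Y i) z)|
            ≤ L * ‖vec (st'.Y i) z - vec (st.Y i) z‖ :=
              hL _ (st.Y_mem i z hz32 hx) _ (st'.Y_mem i z hz32 hx)
          _ ≤ L * (2 * B.T * (sd.C / lam ^ 2)) := mul_le_mul_of_nonneg_left hY hL0
          _ = L * (2 * B.T * sd.C) / lam ^ 2 := by ring
          _ ≤ L * (2 * B.T * sd.C) / lam := hsq _ (by positivity)
          _ ≤ δ := h3'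
      · rw [not_le] at hx
        rw [st.Y_outside i z hz32 hx, st'.Y_outside i z hz32 hx, sub_self, abs_zero]
        exact hδ.le
    have : st'.dens i z - st.dens i z = (st.rho (vec (st'.Y i) z) - st.rho (vec (st.Y i) z)) +
        ε * ∑ a, Real.cos (lam * (mu a * phi B a (vec (st'.Y i) z))) := by
      unfold Stage.dens
      rw [hn.rho_eq]; ring
    rw [this]
    calc _ ≤ |st.rho (vec (st'.Y i) z) - st.rho (vec (st.Y i) z)| +
        |ε * ∑ a, Real.cos (lam * (mu a * phi B a (vec (st'.Y i) z)))| := abs_add_le _ _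
      _ ≤ δ + 4 * ε := add_le_add hrho (hcos _)
      _ = 4 * ε + δ := add_comm _ _
  · intro i k z
    rw [hn.u_eq, add_sub_cancel_left]
    exact ((sd.v_le lam h1 i k z).trans (hsq _ hC)).trans h2'
  · intro i k j z
    have hfun : st'.u i k = fun z => st.u i k z + sd.v lam i k z := funext (hn.u_eq i k)
    have hdx : dx j (st'.u i k) z = dx j (st.u i k) z + dx j (sd.v lam i k) z := by
      rw [hfun]
      unfold dx
      rw [fderiv_fun_add ((st.u_smooth i k).differentiable (by simp)).differentiableAt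
        ((sd.v_smooth lam i k).differentiable (by simp)).differentiableAt]
      rfl
    rw [hdx, add_sub_cancel_left]
    unfold dx
    have hnorm : ‖((0 : ℝ), (Pi.single j 1 : V3))‖ ≤ 1 := by
      rw [Prod.norm_def]
      simp [Pi.norm_single]
    calc |fderiv ℝ (sd.v lam i k) z (0, Pi.single j 1)|
        ≤ ‖fderiv ℝ (sd.v lam i k) z‖ * ‖((0 : ℝ), (Pi.single j 1 : V3))‖ :=
          (fderiv ℝ (sd.v lam i k) z).le_opNorm _
      _ ≤ sd.C / lam * 1 := mul_le_mul (sd.dv_le lam h1 i k z) hnorm (norm_nonneg _)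
          (div_nonneg hC hlam0.le)
      _ ≤ δ := by rw [mul_one]; exact h2'
  · intro e he k z hz
    rw [hn.f_eq, add_sub_cancel_left]
    exact sd.abs_FF_le hε lam e z (fun i k => he i k z hz) k

theorem mu_nonneg70 (a : Fin 4) : 0 ≤ mu a := by unfold mu; positivity

theorem mu_le70 (a : Fin 4) : mu a ≤ 10 ^ 6 := by
  unfold mu
  have : (a : ℕ) ≤ 3 := by omega
  calc (100 : ℝ) ^ (a : ℕ) ≤ 100 ^ 3 := pow_le_pow_right₀ (by norm_num) this
    _ = 10 ^ 6 := by norm_num

theorem abs_cos_sub_cos_le70 (a b : ℝ) : |Real.cos a - Real.cos b| ≤ |a - b| := by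
  have := (Real.lipschitzWith_cos).dist_le_mul a b
  simpa [Real.dist_eq] using this

/-- the new density is `dens + ε CC + O(1/λ)` -/
theorem Next.dens_err {st : Stage B} {ε : ℝ} (sd : StepData st ε) :
    ∃ C, 0 ≤ C ∧ ∀ lam, 1 ≤ lam → ∀ st' : Stage B, Next sd lam st' →
      ∀ i (z : X), |z.1| ≤ B.T → ‖z.2 - B.x0‖ ≤ 1 →
        |st'.dens i z - (st.dens i z + ε * st.CC lam i z)| ≤ C / lam := by
  have hT := B.hT
  obtain ⟨L, hL0, hL⟩ := exists_lip_ball B st.rho st.rho_smooth
  have hphi : ∀ a, ∃ L, 0 ≤ L ∧ ∀ x ∈ Metric.closedBall B.x0 2, ∀ y ∈ Metric.closedBall B.x0 2,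
      |phi B a y - phi B a x| ≤ L * ‖y - x‖ := fun a => exists_lip_ball B _ (phi_smooth70 a)
  choose M hM0 hM using hphi
  have hC := sd.C_nonneg
  set S := ∑ a, M a with hS
  have hS0 : 0 ≤ S := Finset.sum_nonneg fun a _ => hM0 a
  set D := 2 * B.T * sd.C with hD
  have hD0 : 0 ≤ D := by positivity
  refine ⟨L * D + |ε| * (10 ^ 6 * S * D), by positivity, fun lam h1 st' hn i z hz _ => ?_⟩
  have hlam0 : 0 < lam := by linarith
  have hz32 : |z.1| ≤ 3 / 2 * B.T := by linarith
  by_cases hx : ‖z.2 - B.x0‖ ≤ B.r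
  · have hY := hn.Y_close h1 i z hz32
    have hm := st.Y_mem i z hz32 hx
    have hm' := st'.Y_mem i z hz32 hx
    set y := vec (st.Y i) z
    set y' := vec (st'.Y i) z
    have hY' : ‖y' - y‖ ≤ D / lam ^ 2 := by
      refine hY.trans (le_of_eq ?_)
      rw [hD]; ring
    have e1 : |st.rho y' - st.rho y| ≤ L * D / lam := by
      calc |st.rho y' - st.rho y| ≤ L * ‖y' - y‖ := hL _ hm _ hm'
        _ ≤ L * (D / lam ^ 2) := mul_le_mul_of_nonneg_left hY' hL0
        _ = L * D / lam ^ 2 := by ring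
        _ ≤ L * D / lam := by
          apply div_le_div_of_nonneg_left (by positivity) hlam0
          nlinarith
    have e2 : ∀ a, |Real.cos (lam * (mu a * phi B a y')) - Real.cos (lam * (mu a * phi B a y))| ≤
        10 ^ 6 * M a * D / lam := by
      intro a
      calc |Real.cos (lam * (mu a * phi B a y')) - Real.cos (lam * (mu a * phi B a y))|
          ≤ |lam * (mu a * phi B a y') - lam * (mu a * phi B a y)| := abs_cos_sub_cos_le70 _ _
        _ = lam * (mu a * |phi B a y' - phi B a y|) := by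
          rw [← mul_sub, ← mul_sub, abs_mul, abs_mul, abs_of_pos hlam0, abs_of_nonneg (mu_nonneg70 a)]
        _ ≤ lam * (10 ^ 6 * (M a * (D / lam ^ 2))) := by
          apply mul_le_mul_of_nonneg_left _ hlam0.le
          apply mul_le_mul (mu_le70 a) _ (abs_nonneg _) (by norm_num)
          exact (hM a _ hm _ hm').trans (mul_le_mul_of_nonneg_left hY' (hM0 a))
        _ = 10 ^ 6 * M a * D / lam := by
          field_simp
    have e3 : st'.dens i z - (st.dens i z + ε * st.CC lam i z) = (st.rho y' - st.rho y) +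
        ε * ∑ a, (Real.cos (lam * (mu a * phi B a y')) - Real.cos (lam * (mu a * phi B a y))) := by
      unfold Stage.dens Stage.CC Stage.h
      rw [hn.rho_eq, Finset.sum_sub_distrib]
      ring
    rw [e3]
    calc _ ≤ |st.rho y' - st.rho y| + |ε * ∑ a, (Real.cos (lam * (mu a * phi B a y')) -
        Real.cos (lam * (mu a * phi B a y)))| := abs_add_le _ _
      _ ≤ L * D / lam + |ε| * ∑ a, 10 ^ 6 * M a * D / lam := by
        apply add_le_add e1
        rw [abs_mul]
        apply mul_le_mul_of_nonneg_left _ (abs_nonneg ε)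
        exact (Finset.abs_sum_le_sum_abs _ _).trans (Finset.sum_le_sum fun a _ => e2 a)
      _ = (L * D + |ε| * (10 ^ 6 * S * D)) / lam := by
        rw [← Finset.sum_div, ← Finset.sum_mul, ← Finset.mul_sum, ← hS]
        ring
  · rw [not_le] at hx
    have h3 : st'.dens i z - (st.dens i z + ε * st.CC lam i z) = 0 := by
      unfold Stage.dens Stage.CC Stage.h
      rw [hn.rho_eq, st.Y_outside i z hz32 hx, st'.Y_outside i z hz32 hx]
      ring
    rw [h3, abs_zero]
    positivity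


end H37.MHD
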